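import Mathlib
import Pool.Agent.N759.UC.Finite

/-! # Long powers in the bases of a sequence of orbits, arbitrary diagonal matrices -/

set_option autoImplicit false

open Filter Topology Matrix Polynomial

namespace Pool.Agent.U514.CSDPow

open H715R2 Pool.Agent.N759.NV Pool.Agent.N759.WP Pool.Agent.N759.UC

variable {d : ℕ}

/-- the limit at the centres of long powers in a sequence of orbits -/
theorem pow_limit {C : ℝ} (g : ℕ → Matrix (Fin d) (Fin d) ℝ)
    (U : (Matrix (Fin d) (Fin d) ℤ)ˣ)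
    (h : ∀ m : ℕ, ∃ n, m ≤ n ∧ ∃ V : Matrix (Fin d) (Fin d) ℤ, |V.det| = 1 ∧ ∀ j : ℕ, j ≤ m →
      ∃ a : Fin d → ℝ, |∏ i, a i| = 1 ∧ ∀ i k, |(diagonal a * g n * zR
        (V * (U : Matrix (Fin d) (Fin d) ℤ) ^ j)) i k| ≤ C) :
    ∃ (s : ℕ → ℕ) (x : ℕ → Matrix (Fin d) (Fin d) ℝ) (h' : Matrix (Fin d) (Fin d) ℝ),
      (∀ i, i ≤ s i) ∧ (∀ i, x i ∈ Orb (g (s i))) ∧ Tendsto x atTop (𝓝 h') ∧
      ∀ i : ℤ, ∏ r, rs (h' * pw U i) r ≤ (d * C) ^ d := by
  choose t ht V hV hgood using fun m : ℕ => h (2 * (m + 1))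
  choose a ha hC using fun (m j : ℕ) (hj : j ≤ 2 * (m + 1)) => hgood m j hj
  set x : ℕ → Matrix (Fin d) (Fin d) ℝ := fun m =>
    diagonal (fun i => |a m (m + 1) (by omega) i|) * g (t m) * zR
      (V m * (U : Matrix (Fin d) (Fin d) ℤ) ^ (m + 1)) with hx
  have habs : ∀ (b : Fin d → ℝ) (M N : Matrix (Fin d) (Fin d) ℝ) (i k : Fin d),
      |(diagonal (fun i => |b i|) * M * N) i k| = |(diagonal b * M * N) i k| := by
    intro b M N i k
    rw [Matrix.mul_assoc, Matrix.mul_assoc, diagonal_mul, diagonal_mul, abs_mul, abs_mul, abs_abs]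
  obtain ⟨h', -, φ, hφ, hlim⟩ := (isCompact_box (d := d) C).tendsto_subseq
    (x := x) (fun m => fun i k => by
      simp only [hx]
      rw [habs]
      exact hC m _ _ i k)
  refine ⟨fun n => t (φ n), fun n => x (φ n), h', fun n => ?_, fun n => ?_, hlim, fun i => ?_⟩
  · have h1 := ht (φ n)
    have h2 := hφ.id_le n
    simp only [id] at h2
    show n ≤ t (φ n)
    omega
  · refine ⟨_, _, fun i => ?_, ?_, ?_, rfl⟩
    · have h1 := ha (φ n) (φ n + 1) (by omega)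
      refine abs_pos.2 fun h0 => ?_
      rw [Finset.prod_eq_zero (Finset.mem_univ i) h0, abs_zero] at h1
      exact zero_ne_one h1
    · rw [← Finset.abs_prod]
      exact ha (φ n) (φ n + 1) (by omega)
    · rw [det_mul, det_pow]
      refine IsUnit.mul (Int.isUnit_iff_abs_eq.2 (hV _)) (IsUnit.pow _ ?_)
      exact (Matrix.isUnit_iff_isUnit_det _).1 U.isUnit
  have h1 := ((continuous_rs (pw U i)).tendsto h').comp hlim
  refine le_of_tendsto h1 ?_
  filter_upwards [eventually_ge_atTop i.natAbs] with n hn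
  have hn' : i.natAbs ≤ φ n := hn.trans hφ.le_apply
  set m := φ n with hm
  obtain ⟨j, hj⟩ : ∃ j : ℕ, (j : ℤ) = m + 1 + i := ⟨((m : ℤ) + 1 + i).toNat, by
    rw [Int.toNat_of_nonneg]; omega⟩
  have hj2 : j ≤ 2 * (m + 1) := by omega
  have h2 : (V m * (U : Matrix (Fin d) (Fin d) ℤ) ^ (m + 1)) *
      ((U ^ i : (Matrix (Fin d) (Fin d) ℤ)ˣ) : Matrix (Fin d) (Fin d) ℤ) =
      V m * (U : Matrix (Fin d) (Fin d) ℤ) ^ j := by
    rw [Matrix.mul_assoc]
    congr 1
    have h3 : U ^ (m + 1) * U ^ i = U ^ j := by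
      rw [← zpow_natCast U (m + 1), ← zpow_natCast U j, ← _root_.zpow_add, hj]
      push_cast
      rfl
    have h4 := congrArg (fun u : (Matrix (Fin d) (Fin d) ℤ)ˣ => (u : Matrix (Fin d) (Fin d) ℤ)) h3
    simp only [Units.val_mul, Units.val_pow_eq_pow_val] at h4
    exact h4
  show ∏ r, rs (x m * pw U i) r ≤ _
  -- both products agree
  have hprod : ∀ (b : Fin d → ℝ), |∏ i, b i| = 1 → ∀ M : Matrix (Fin d) (Fin d) ℝ,
      ∏ r, rs (diagonal b * M) r = ∏ r, rs M r := by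
    intro b hb M
    simp only [rs_diag]
    rw [Finset.prod_mul_distrib, ← Finset.abs_prod, hb, one_mul]
  have h5 : x m * pw U i = diagonal (fun i => |a m (m + 1) (by omega) i|) *
      (g (t m) * zR (V m * (U : Matrix (Fin d) (Fin d) ℤ) ^ j)) := by
    rw [hx, ← h2, zR_mul (V m * (U : Matrix (Fin d) (Fin d) ℤ) ^ (m + 1)), pw]
    simp only [Matrix.mul_assoc]
  rw [h5, hprod _ (by
    rw [← Finset.abs_prod, abs_abs]
    exact ha m (m + 1) _), ← hprod _ (ha m j hj2)]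
  have h3 : ∀ r, rs (diagonal (a m j hj2) *
      (g (t m) * zR (V m * (U : Matrix (Fin d) (Fin d) ℤ) ^ j))) r ≤ d * C := by
    intro r
    unfold rs
    calc ∑ k, |(diagonal (a m j hj2) * (g (t m) * zR (V m *
          (U : Matrix (Fin d) (Fin d) ℤ) ^ j))) r k|
        ≤ ∑ _k : Fin d, C := Finset.sum_le_sum fun k _ => by
          rw [← Matrix.mul_assoc]; exact hC m j hj2 r k
      _ = d * C := by simp
  calc _ ≤ ∏ _r : Fin d, ((d : ℝ) * C) := Finset.prod_le_prod (fun r _ => rs_nonneg _ _) fun r _ => h3 r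
    _ = (d * C) ^ d := by rw [Finset.prod_const, Finset.card_univ, Fintype.card_fin]

/-- a limit whose orbit contains all powers of `U` in bounded form has an algebraic row in its orbit
closure -/
theorem alg_of_powers (hd : 3 ≤ d) {h' : Matrix (Fin d) (Fin d) ℝ} (hdet : h'.det ≠ 0)
    {ν : ℝ} (hν : 0 < ν) (hnu' : HasNu h' ν) (U : (Matrix (Fin d) (Fin d) ℤ)ˣ)
    (hU : (d.Prime ∧ ∀ n : ℕ, 0 < n → U ^ n ≠ 1) ∨
      ∃ r : ℝ, Nat.Coprime (nmod (U : Matrix (Fin d) (Fin d) ℤ) r) d)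
    (B : ℝ) (hB : ∀ i : ℤ, ∏ r, rs (h' * pw U i) r ≤ B) :
    ∃ f : ℚ[X], ∃ _ : Fact (Irreducible f),
      ∃ D : Dat (AdjoinRoot f) d, D.g ∈ closure (Orb h') := by
  classical
  have hd0 : 0 < d := by omega
  have hne : ∀ x : Fin d → ℤ, x ≠ 0 → ∀ i, ∑ k, h' i k * (x k : ℝ) ≠ 0 := by
    intro x hx i h0
    have h1 := hnu' x hx
    have h2 : FF h' (iR x) = 0 := Finset.prod_eq_zero (Finset.mem_univ i) h0
    rw [h2, abs_zero] at h1
    linarith
  obtain ⟨ρ, hρ, hρ1, C', hC'0, hC'⟩ := exists_rho hd0 U h' _ hB hne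
  obtain ⟨r, hr⟩ : ∃ r : ℝ, Nat.Coprime (Finset.univ.filter fun i => ρ i = r).card d := by
    rcases hU with ⟨hprime, hinf⟩ | ⟨r, hr⟩
    · obtain ⟨i, k, hik⟩ : ∃ i k, ρ i ≠ ρ k := by
        by_contra hcon
        push Not at hcon
        have h1 : ∀ i, ρ i = 1 := by
          intro i
          have h2 : ρ i ^ d = 1 := by
            rw [← hρ1, Finset.prod_congr rfl fun k _ => hcon k i, Finset.prod_const,
              Finset.card_univ, Fintype.card_fin]
          exact (pow_eq_one_iff_of_nonneg (hρ i).le (by omega)).1 h2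
        obtain ⟨n, hn, hUn⟩ := bounded_powers U h' hdet C' fun j i => by
          have h2 := hC' j i
          rwa [h1, _root_.one_zpow, mul_one] at h2
        exact hinf n hn hUn
      refine ⟨ρ i, ?_⟩
      have h1 : 0 < (Finset.univ.filter fun k => ρ k = ρ i).card :=
        Finset.card_pos.2 ⟨i, by simp⟩
      have h2 : (Finset.univ.filter fun k => ρ k = ρ i).card < d := by
        have h3 : (Finset.univ.filter fun k => ρ k = ρ i) ⊂ Finset.univ := by
          refine ⟨Finset.subset_univ _, fun hsub => ?_⟩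
          have h4 := hsub (Finset.mem_univ k)
          rw [Finset.mem_filter] at h4
          exact hik h4.2.symm
        have h5 := Finset.card_lt_card h3
        rwa [Finset.card_univ, Fintype.card_fin] at h5
      exact (Nat.coprime_of_lt_prime h1.ne' h2 hprime).symm
    · exact ⟨r, by rwa [← count_rows U h' hdet ρ hρ hρ1 C' hC'0 hC' r]⟩
  exact exists_alg hd hdet hν hnu' U ρ hρ hρ1 hC'0 hC' hr

/-- a power of `U` of length `N` among the bases of the orbit of `g` reduced up to `C` -/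
def BadPow (C : ℝ) (B : ℤ) (g : Matrix (Fin d) (Fin d) ℝ) (N : ℕ) : Prop :=
  ∃ V U : Matrix (Fin d) (Fin d) ℤ, |V.det| = 1 ∧ |U.det| = 1 ∧ (∀ i k, |U i k| ≤ B) ∧
    ((d.Prime ∧ ∀ n : ℕ, 0 < n → U ^ n ≠ 1) ∨ ∃ r : ℝ, Nat.Coprime (nmod U r) d) ∧
    ∀ j : ℕ, j ≤ N → ∃ a : Fin d → ℝ, |∏ i, a i| = 1 ∧
      ∀ i k, |(diagonal a * g * zR (V * U ^ j)) i k| ≤ C

theorem pow_seq (hd : 3 ≤ d) {δ ν : ℝ} (hδ : 0 < δ) (hν : 0 < ν) (C : ℝ) (B : ℤ)
    (g : ℕ → Matrix (Fin d) (Fin d) ℝ) (N : ℕ → ℕ) (hN : ∀ i, i ≤ N i)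
    (hg : ∀ i, |(g i).det| = δ) (hnu : ∀ i, HasNu (g i) ν)
    (hbad : ∀ i, BadPow C B (g i) (N i)) :
    ∃ s : ℕ → ℕ, (∀ i, i ≤ s i) ∧ (∀ i, PropInt (g (s i))) ∧
      ∀ i j, Eqv (g (s i)) (g (s j)) := by
  classical
  choose V U hV hU hUB hUg hpow using hbad
  have hfinW : ({M : Fin d → Fin d → ℤ | ∀ i k, M i k ∈ Set.Icc (-B) B}).Finite := by
    have h2 : ({v : Fin d → ℤ | ∀ k, v k ∈ Set.Icc (-B) B}).Finite :=
      Set.Finite.pi' fun _ => Set.finite_Icc _ _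
    exact Set.Finite.pi' fun _ => h2
  obtain ⟨p, hfreq⟩ : ∃ p : Fin d → Fin d → ℤ, ∃ᶠ m in atTop, (U m : Fin d → Fin d → ℤ) = p := by
    by_contra hcon
    push Not at hcon
    have h1 : ∀ᶠ m in atTop, ∀ p ∈ {M : Fin d → Fin d → ℤ | ∀ i k, M i k ∈ Set.Icc (-B) B},
        (U m : Fin d → Fin d → ℤ) ≠ p := by
      rw [eventually_all_finite hfinW]
      intro p _
      exact hcon p
    obtain ⟨m, hm⟩ := h1.exists
    exact hm _ (fun i k => abs_le.1 (hUB m i k)) rfl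
  obtain ⟨m₀, hm₀⟩ := hfreq.exists
  obtain ⟨φ, hφ, hφp⟩ := extraction_of_frequently_atTop hfreq
  have hsame : ∀ n, U (φ n) = U m₀ := fun n => (hφp n).trans hm₀.symm
  obtain ⟨u, hu⟩ : IsUnit (U m₀) :=
    (Matrix.isUnit_iff_isUnit_det _).2 (Int.isUnit_iff_abs_eq.2 (hU m₀))
  have hug : (d.Prime ∧ ∀ n : ℕ, 0 < n → u ^ n ≠ 1) ∨
      ∃ r : ℝ, Nat.Coprime (nmod (u : Matrix (Fin d) (Fin d) ℤ) r) d := by
    rcases hUg m₀ with ⟨h1, h2⟩ | h1
    · left
      refine ⟨h1, fun n hn h0 => h2 n hn ?_⟩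
      have := congrArg (fun x : (Matrix (Fin d) (Fin d) ℤ)ˣ => (x : Matrix (Fin d) (Fin d) ℤ)) h0
      simpa [hu] using this
    · right
      rw [hu]
      exact h1
  obtain ⟨s, x, h', hs, hx, hlim, hB⟩ := pow_limit (C := C) g u (fun m => by
    refine ⟨φ m, hφ.id_le m, V (φ m), hV _, fun j hj => ?_⟩
    have h1 := hpow (φ m) j (hj.trans ((hφ.id_le m).trans (hN _)))
    rw [hsame, ← hu] at h1
    exact h1)
  have hnuh : HasNu h' ν := hasNu_tendsto (fun n => hasNu_orb (hnu _) (hx n)) hlim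
  have hdeth : |h'.det| = δ := by
    have h1 := ((continuous_det'.tendsto h').comp hlim).abs
    refine (tendsto_nhds_unique (h1.congr fun n => ?_) tendsto_const_nhds)
    show |(x n).det| = δ
    rw [abs_det_orb (hx n), hg]
  have hdet : h'.det ≠ 0 := by
    intro h0
    rw [h0, abs_zero] at hdeth
    exact hδ.ne hdeth
  exact iso_of_limit hδ hν g hg hnu s hs x hx hlim (alg_of_powers hd hdet hν hnuh u hug _ hB)

end Pool.Agent.U514.CSDPow
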