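import Mathlib

/-! # Windows with few blocks (Morse and Hedlund) and walks in groups -/

set_option autoImplicit false

namespace Pool.Agent.U514.MH

variable {α : Type*}

/-- the block of length `k` at the position `m` -/
def blk (w : ℤ → α) (k : ℕ) (m : ℤ) : Fin k → α := fun i => w (m + (i : ℕ))

/-- A window with at most `n` different blocks of length `n` is periodic up to its beginning. -/
theorem mh [DecidableEq α] (w : ℤ → α) (n L : ℕ) (m₀ : ℤ) (hL : n ≤ L)
    (h : ((Finset.Icc m₀ (m₀ + L)).image (blk w n)).card ≤ n) :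
    ∃ p : ℕ, 1 ≤ p ∧ p ≤ n ∧ ∃ s : ℤ, m₀ ≤ s ∧ s ≤ m₀ + 2 * n ∧
      ∀ t : ℤ, s ≤ t → t + p ≤ m₀ + L → w t = w (t + p) := by
  classical
  set P := Finset.Icc m₀ (m₀ + L) with hP
  have hPm : ∀ m, m ∈ P ↔ m₀ ≤ m ∧ m ≤ m₀ + L := fun m => by rw [hP, Finset.mem_Icc]
  have hres : ∀ k, (P.image (blk w (k + 1))).image (fun f (i : Fin k) => f i.castSucc)
      = P.image (blk w k) := by
    intro k
    rw [Finset.image_image]
    rfl
  obtain ⟨k, hk, hinj⟩ : ∃ k, k < n ∧ Set.InjOn (fun (f : Fin (k + 1) → α) (i : Fin k) =>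
      f i.castSucc) (P.image (blk w (k + 1))) := by
    by_contra hcon
    push Not at hcon
    have hcard : ∀ k, k ≤ n → k + 1 ≤ (P.image (blk w k)).card := by
      intro k
      induction k with
      | zero =>
        intro _
        have : (P.image (blk w 0)).Nonempty := by
          refine Finset.Nonempty.image ⟨m₀, ?_⟩ _
          rw [hPm]
          omega
        simpa using this.card_pos
      | succ k ih =>
        intro hk
        have h1 := ih (by omega)
        have h2 := hcon k (by omega)
        have h3 : (P.image (blk w k)).card < (P.image (blk w (k + 1))).card := by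
          rw [← hres k]
          refine lt_of_le_of_ne Finset.card_image_le fun h0 => h2 ?_
          exact Finset.card_image_iff.1 h0
        omega
    have := hcard n le_rfl
    omega
  -- blocks determine the next letter
  have hdet : ∀ m m', m ∈ P → m' ∈ P → blk w k m = blk w k m' → w (m + k) = w (m' + k) := by
    intro m m' hm hm' hb
    have h1 : blk w (k + 1) m = blk w (k + 1) m' := by
      refine hinj ?_ ?_ ?_
      · exact Finset.mem_coe.2 (Finset.mem_image_of_mem _ hm)
      · exact Finset.mem_coe.2 (Finset.mem_image_of_mem _ hm')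
      · exact hb
    have h2 := congrFun h1 (Fin.last k)
    simpa [blk] using h2
  have hnext : ∀ m m', m ∈ P → m' ∈ P → blk w k m = blk w k m' →
      blk w k (m + 1) = blk w k (m' + 1) := by
    intro m m' hm hm' hb
    funext i
    have hi := i.2
    rcases Nat.lt_or_ge ((i : ℕ) + 1) k with h1 | h1
    · have h2 := congrFun hb ⟨(i : ℕ) + 1, h1⟩
      simp only [blk] at h2 ⊢
      have e1 : m + (((i : ℕ) + 1 : ℕ) : ℤ) = m + 1 + (i : ℕ) := by push_cast; ring
      have e2 : m' + (((i : ℕ) + 1 : ℕ) : ℤ) = m' + 1 + (i : ℕ) := by push_cast; ring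
      rw [e1, e2] at h2
      exact h2
    · have h2 : (i : ℕ) + 1 = k := by omega
      have h3 := hdet m m' hm hm' hb
      simp only [blk]
      have e1 : m + 1 + ((i : ℕ) : ℤ) = m + k := by
        have : (k : ℤ) = (i : ℕ) + 1 := by exact_mod_cast h2.symm
        rw [this]; ring
      have e2 : m' + 1 + ((i : ℕ) : ℤ) = m' + k := by
        have : (k : ℤ) = (i : ℕ) + 1 := by exact_mod_cast h2.symm
        rw [this]; ring
      rw [e1, e2]
      exact h3
  -- two equal blocks
  obtain ⟨i, j, hij, hi, hj, hb⟩ : ∃ i j : ℕ, i < j ∧ i ≤ n ∧ j ≤ n ∧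
      blk w k (m₀ + i) = blk w k (m₀ + j) := by
    have hle : (P.image (blk w k)).card ≤ n := by
      have h1 : ∀ l, (P.image (blk w k)).card ≤ (P.image (blk w (k + l))).card := by
        intro l
        induction l with
        | zero => exact le_rfl
        | succ l ih =>
          refine ih.trans ?_
          rw [← hres (k + l)]
          exact Finset.card_image_le
      have h2 := h1 (n - k)
      rw [show k + (n - k) = n by omega] at h2
      exact h2.trans h
    have hmaps : ∀ a ∈ Finset.range (n + 1), blk w k (m₀ + (a : ℕ)) ∈ P.image (blk w k) := by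
      intro a ha
      refine Finset.mem_image_of_mem _ ?_
      rw [hPm]
      have := Finset.mem_range.1 ha
      omega
    have hlt : (P.image (blk w k)).card < (Finset.range (n + 1)).card := by
      rw [Finset.card_range]; omega
    obtain ⟨a, ha, b, hb, hab, heq⟩ := Finset.exists_ne_map_eq_of_card_lt_of_maps_to hlt hmaps
    rw [Finset.mem_range] at ha hb
    rcases lt_or_gt_of_ne hab with h1 | h1
    · exact ⟨a, b, h1, by omega, by omega, heq⟩
    · exact ⟨b, a, h1, by omega, by omega, heq.symm⟩
  have hall : ∀ t : ℕ, m₀ + j + t ≤ m₀ + L →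
      blk w k (m₀ + i + t) = blk w k (m₀ + j + t) := by
    intro t
    induction t with
    | zero => intro _; simpa using hb
    | succ t ih =>
      intro ht
      have h1 := ih (by push_cast at ht; omega)
      have h2 := hnext _ _ (by rw [hPm]; push_cast at ht; omega)
        (by rw [hPm]; push_cast at ht; omega) h1
      have e1 : m₀ + i + t + 1 = m₀ + i + ((t + 1 : ℕ) : ℤ) := by push_cast; ring
      have e2 : m₀ + j + t + 1 = m₀ + j + ((t + 1 : ℕ) : ℤ) := by push_cast; ring
      rwa [e1, e2] at h2
  refine ⟨j - i, by omega, by omega, m₀ + i + k, by omega, by omega, fun t ht htL => ?_⟩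
  obtain ⟨u, hu⟩ : ∃ u : ℕ, (u : ℤ) = t - (m₀ + i + k) :=
    ⟨(t - (m₀ + i + k)).toNat, Int.toNat_of_nonneg (by omega)⟩
  have hji : ((j - i : ℕ) : ℤ) = j - i := by omega
  rw [hji] at htL ⊢
  have h1 := hall u (by omega)
  have h2 := hdet _ _ (by rw [hPm]; omega) (by rw [hPm]; omega) h1
  have e1 : m₀ + i + u + k = t := by omega
  have e2 : m₀ + j + u + k = t + (j - i) := by omega
  rwa [e1, e2] at h2

/-- a walk with periodic steps runs through powers -/
theorem walk {G : Type*} [Group G] (U : ℤ → G) (s : ℤ) (p : ℕ) (T : ℤ)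
    (h : ∀ t : ℤ, s ≤ t → t + p ≤ T →
      (U t)⁻¹ * U (t + 1) = (U (t + p))⁻¹ * U (t + p + 1)) (j : ℕ) (hj : s + j * p ≤ T) :
    U (s + j * p) = U s * ((U s)⁻¹ * U (s + p)) ^ j := by
  have hshift : ∀ t : ℕ, s + t + p ≤ T → U (s + t + p) = U (s + p) * (U s)⁻¹ * U (s + t) := by
    intro t
    induction t with
    | zero => intro _; simp
    | succ t ih =>
      intro ht
      have h1 := ih (by push_cast at ht; omega)
      have h2 := h (s + t) (by omega) (by push_cast at ht; omega)
      have e1 : s + ((t + 1 : ℕ) : ℤ) + p = s + t + p + 1 := by push_cast; ring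
      have e2 : s + ((t + 1 : ℕ) : ℤ) = s + t + 1 := by push_cast; ring
      rw [e1, e2]
      have h3 : U (s + t + p + 1) = U (s + t + p) * ((U (s + t + p))⁻¹ * U (s + t + p + 1)) := by
        rw [mul_inv_cancel_left]
      rw [h3, ← h2, h1, mul_assoc, mul_inv_cancel_left]
  induction j with
  | zero => simp
  | succ j ih =>
    have h1 := ih (by push_cast at hj; nlinarith)
    have h2 := hshift (j * p) (by push_cast at hj ⊢; linarith)
    have e1 : s + ((j + 1 : ℕ) : ℤ) * p = s + ((j * p : ℕ) : ℤ) + p := by push_cast; ring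
    have e2 : s + ((j * p : ℕ) : ℤ) = s + j * p := by push_cast; ring
    rw [e1, h2, e2, h1, pow_succ']
    simp only [mul_assoc, inv_mul_cancel_left, mul_inv_cancel_left]

end Pool.Agent.U514.MH
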