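import Mathlib

/-! # Bounded extensions of functionals and complemented subspaces -/

set_option autoImplicit false

open Filter Topology TopologicalSpace
open scoped ENNReal lp

namespace Pool.Agent.U514.BE

variable {𝕜 : Type*} [RCLike 𝕜] {E : Type*} [NormedAddCommGroup E] [NormedSpace 𝕜 E]

/-- there are uniformly bounded extensions of the functionals with a dense sum -/
def Ext (G : Submodule 𝕜 E) (φ : ℕ → StrongDual 𝕜 G) : Prop :=
  ∃ f : ℕ → StrongDual 𝕜 E, (∀ n (x : G), f n x = φ n x) ∧ (∃ C : ℝ, ∀ n, ‖f n‖ ≤ C) ∧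
    Dense {x : E | ∃ g ∈ G, ∃ y : E, (∀ n, f n y = 0) ∧ x = g + y}

/-- a separable normed space has a norming sequence of functionals -/
theorem exists_norming (X : Type*) [NormedAddCommGroup X] [NormedSpace 𝕜 X] [SeparableSpace X] :
    ∃ φ : ℕ → StrongDual 𝕜 X, (∀ n, ‖φ n‖ ≤ 1) ∧
      ∀ (x : X) (r : ℝ), (∀ n, ‖φ n x‖ ≤ r) → ‖x‖ ≤ r := by
  choose g hg using fun x : X => exists_dual_vector'' 𝕜 x
  refine ⟨fun n => g (denseSeq X n), fun n => (hg _).1, fun x r hr => ?_⟩
  refine le_of_forall_pos_le_add fun ε hε => ?_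
  obtain ⟨n, hn⟩ := (denseRange_denseSeq X).exists_dist_lt x (show 0 < ε / 2 by positivity)
  rw [dist_eq_norm] at hn
  set y := denseSeq X n with hy
  have h1 : ‖g y y‖ = ‖y‖ := by
    rw [(hg y).2]
    simp
  have h2 : ‖g y (y - x)‖ ≤ ‖y - x‖ := by
    refine ((g y).le_opNorm _).trans ?_
    have := (hg y).1
    nlinarith [norm_nonneg (y - x)]
  have h3 : ‖g y x‖ ≤ r := hr n
  have h4 : ‖g y y‖ ≤ ‖g y x‖ + ‖g y (y - x)‖ := by
    have : g y y = g y x + g y (y - x) := by rw [map_sub]; ring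
    rw [this]
    exact norm_add_le _ _
  have h5 : ‖x‖ ≤ ‖y‖ + ‖x - y‖ := by
    have := norm_add_le y (x - y)
    rwa [add_sub_cancel] at this
  rw [norm_sub_rev] at h2
  linarith

/-- **Characterization.** -/
theorem ext_iff [CompleteSpace E] [SeparableSpace E] (G : Submodule 𝕜 E)
    (hG : IsClosed (G : Set E)) :
    (∀ φ : ℕ → StrongDual 𝕜 G, (∃ C : ℝ, ∀ n, ‖φ n‖ ≤ C) → Ext G φ) ↔ G.ClosedComplemented := by
  constructor
  · intro h
    obtain ⟨φ, hφ1, hφ2⟩ := exists_norming (𝕜 := 𝕜) G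
    obtain ⟨f, hf, ⟨C, hC⟩, hd⟩ := h φ ⟨1, hφ1⟩
    set N : Submodule 𝕜 E := ⨅ n, LinearMap.ker (f n : E →ₗ[𝕜] 𝕜) with hN
    have hNm : ∀ x, x ∈ N ↔ ∀ n, f n x = 0 := by
      intro x
      rw [hN, Submodule.mem_iInf]
      rfl
    have hNc : IsClosed (N : Set E) := by
      have h1 : (N : Set E) = ⋂ n, {x | f n x = 0} := by
        ext x
        rw [SetLike.mem_coe, hNm, Set.mem_iInter]
        rfl
      rw [h1]
      exact isClosed_iInter fun n => isClosed_eq (f n).continuous continuous_const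
    -- the key estimate
    have hkey : ∀ g ∈ G, ∀ y ∈ N, ‖g‖ ≤ C * ‖g + y‖ := by
      intro g hg y hy
      have h1 := hφ2 ⟨g, hg⟩ (C * ‖g + y‖) (fun n => by
        have h2 : φ n ⟨g, hg⟩ = f n (g + y) := by
          rw [map_add, (hNm y).1 hy n, add_zero, ← hf]
        rw [h2]
        refine ((f n).le_opNorm _).trans ?_
        exact mul_le_mul_of_nonneg_right (hC n) (norm_nonneg _))
      exact h1
    have hdisj : Disjoint G N := by
      rw [Submodule.disjoint_def]
      intro x hxG hxN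
      have h1 := hkey x hxG (-x) (N.neg_mem hxN)
      rw [add_neg_cancel, norm_zero, mul_zero] at h1
      exact norm_le_zero_iff.1 h1
    have hsum : G ⊔ N = ⊤ := by
      rw [eq_top_iff]
      intro x _
      have hx : x ∈ closure {x : E | ∃ g ∈ G, ∃ y : E, (∀ n, f n y = 0) ∧ x = g + y} := by
        rw [hd.closure_eq]
        trivial
      obtain ⟨z, hz, hzx⟩ := mem_closure_iff_seq_limit.1 hx
      choose g hg y hy hzgy using hz
      have hcau : CauchySeq g := by
        rw [Metric.cauchySeq_iff]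
        intro ε hε
        have hC0 : 0 < |C| + 1 := by positivity
        obtain ⟨M, hM⟩ := Metric.cauchySeq_iff.1 hzx.cauchySeq (ε / (|C| + 1)) (by positivity)
        refine ⟨M, fun m hm n hn => ?_⟩
        have h1 := hM m hm n hn
        rw [dist_eq_norm] at h1 ⊢
        have h2 := hkey (g m - g n) (G.sub_mem (hg m) (hg n)) (y m - y n)
          (N.sub_mem ((hNm _).2 (hy m)) ((hNm _).2 (hy n)))
        have h3 : g m - g n + (y m - y n) = z m - z n := by
          rw [hzgy m, hzgy n]; abel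
        rw [h3] at h2
        rw [lt_div_iff₀ hC0] at h1
        have h4 := le_abs_self C
        nlinarith [norm_nonneg (z m - z n)]
      obtain ⟨g₀, hg₀⟩ := cauchySeq_tendsto_of_complete hcau
      have hg₀G : g₀ ∈ G := hG.mem_of_tendsto hg₀ (Eventually.of_forall hg)
      have hy₀ : Tendsto y atTop (𝓝 (x - g₀)) := by
        have h1 := hzx.sub hg₀
        refine h1.congr fun n => ?_
        rw [hzgy n]; abel
      have hy₀N : x - g₀ ∈ N := hNc.mem_of_tendsto hy₀ (Eventually.of_forall fun n => (hNm _).2 (hy n))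
      rw [Submodule.mem_sup]
      exact ⟨g₀, hg₀G, x - g₀, hy₀N, by abel⟩
    exact Submodule.ClosedComplemented.of_isCompl_isClosed ⟨hdisj, codisjoint_iff.2 hsum⟩ hG hNc
  · rintro ⟨P, hP⟩ φ ⟨C, hC⟩
    refine ⟨fun n => (φ n).comp P, fun n x => ?_, ⟨C * ‖P‖, fun n => ?_⟩, ?_⟩
    · rw [ContinuousLinearMap.comp_apply, hP]
    · refine (ContinuousLinearMap.opNorm_comp_le _ _).trans ?_
      exact mul_le_mul_of_nonneg_right (hC n) (norm_nonneg _)
    · have : {x : E | ∃ g ∈ G, ∃ y : E, (∀ n, (φ n).comp P y = 0) ∧ x = g + y} = Set.univ := by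
        rw [Set.eq_univ_iff_forall]
        intro x
        refine ⟨P x, (P x).2, x - P x, fun n => ?_, by abel⟩
        rw [ContinuousLinearMap.comp_apply, map_sub, hP, sub_self, map_zero]
      rw [this]
      exact dense_univ

/-! ### An uncomplemented subspace of `ℓ¹` -/

variable (𝕜)

/-- `ℓ¹` over the finite sets of natural numbers -/
abbrev L1 : Type _ := lp (fun _ : Finset ℕ => 𝕜) 1

variable {𝕜}

lemma summable_norm (a : L1 𝕜) : Summable fun F => ‖a F‖ := by
  have h := (lp.memℓp a).summable (by simp)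
  simpa using h

lemma norm_eq (a : L1 𝕜) : ‖a‖ = ∑' F, ‖a F‖ := by
  rw [lp.norm_eq_tsum_rpow (by simp)]
  simp

/-- the functional `a ↦ ∑_{F ∋ j} a_F` -/
noncomputable def lam (j : ℕ) : StrongDual 𝕜 (L1 𝕜) :=
  LinearMap.mkContinuous
    { toFun := fun a => ∑' F : Finset ℕ, if j ∈ F then a F else 0
      map_add' := by
        intro a b
        have hs : ∀ a : L1 𝕜, Summable fun F : Finset ℕ => if j ∈ F then a F else 0 := fun a =>
          Summable.of_norm_bounded (summable_norm a) fun F => by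
            split_ifs
            · exact le_rfl
            · rw [norm_zero]; exact norm_nonneg _
        rw [← (hs a).tsum_add (hs b)]
        refine tsum_congr fun F => ?_
        split_ifs
        · rfl
        · rw [add_zero]
      map_smul' := by
        intro c a
        rw [RingHom.id_apply, smul_eq_mul, ← tsum_mul_left]
        refine tsum_congr fun F => ?_
        split_ifs
        · rfl
        · rw [mul_zero] }
    1 (by
      intro a
      rw [one_mul, norm_eq]
      have hb : ∀ F : Finset ℕ, ‖if j ∈ F then a F else 0‖ ≤ ‖a F‖ := fun F => by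
        split_ifs
        · exact le_rfl
        · rw [norm_zero]; exact norm_nonneg _
      have hs : Summable fun F : Finset ℕ => ‖if j ∈ F then a F else 0‖ :=
        Summable.of_nonneg_of_le (fun _ => norm_nonneg _) hb (summable_norm a)
      exact (norm_tsum_le_tsum_norm hs).trans (hs.tsum_le_tsum hb (summable_norm a)))

lemma lam_apply (j : ℕ) (a : L1 𝕜) :
    lam j a = ∑' F : Finset ℕ, if j ∈ F then a F else 0 := rfl

lemma lam_norm_le (j : ℕ) (a : L1 𝕜) : ‖lam j a‖ ≤ ‖a‖ := by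
  have h := (lam (𝕜 := 𝕜) j).le_opNorm a
  have h1 : ‖lam (𝕜 := 𝕜) j‖ ≤ 1 := LinearMap.mkContinuous_norm_le _ zero_le_one _
  nlinarith [norm_nonneg a]

/-- the unit vector -/
noncomputable def u (F : Finset ℕ) : L1 𝕜 := lp.single 1 F (1 : 𝕜)

lemma norm_u (F : Finset ℕ) : ‖(u F : L1 𝕜)‖ = 1 := by
  rw [u, lp.norm_single (by simp)]
  simp

lemma lam_u (j : ℕ) (F : Finset ℕ) : lam j (u F : L1 𝕜) = if j ∈ F then 1 else 0 := by
  rw [lam_apply, tsum_eq_single F]
  · simp [u]
  · intro F' hF'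
    simp [u, Pi.single_eq_of_ne hF']

/-- the subspace -/
noncomputable def GG : Submodule 𝕜 (L1 𝕜) :=
  ⨅ j, LinearMap.ker ((lam (𝕜 := 𝕜) j : L1 𝕜 →L[𝕜] 𝕜) : L1 𝕜 →ₗ[𝕜] 𝕜)

lemma mem_GG (a : L1 𝕜) : a ∈ (GG : Submodule 𝕜 (L1 𝕜)) ↔ ∀ j, lam j a = 0 := by
  rw [GG, Submodule.mem_iInf]
  rfl

lemma isClosed_GG : IsClosed ((GG : Submodule 𝕜 (L1 𝕜)) : Set (L1 𝕜)) := by
  have h1 : ((GG : Submodule 𝕜 (L1 𝕜)) : Set (L1 𝕜)) = ⋂ j, {x | lam j x = 0} := by
    ext x
    rw [SetLike.mem_coe, mem_GG, Set.mem_iInter]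
    rfl
  rw [h1]
  exact isClosed_iInter fun n => isClosed_eq (lam n).continuous continuous_const

/-- adding a vector which is nearly disjoint -/
lemma add_far (w : L1 𝕜) (v : ℕ → L1 𝕜) (hv : ∀ i, 1 ≤ ‖v i‖)
    (hc : ∀ F : Finset ℕ, Tendsto (fun i => v i F) atTop (𝓝 0)) :
    ∀ᶠ i in atTop, ‖w‖ + 1 / 2 ≤ ‖w + v i‖ := by
  classical
  -- a finite set which carries almost all of `w`
  have hs := (summable_norm w).hasSum
  rw [← norm_eq] at hs
  obtain ⟨S, hS⟩ := (hs.eventually (lt_mem_nhds (show ‖w‖ - 1 / 8 < ‖w‖ by linarith))).exists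
  have hsmall : ∀ᶠ i in atTop, ∑ F ∈ S, ‖v i F‖ < 1 / 8 := by
    have h1 : Tendsto (fun i => ∑ F ∈ S, ‖v i F‖) atTop (𝓝 (∑ F ∈ S, 0)) :=
      tendsto_finsetSum _ fun F _ => by
        have := (hc F).norm
        rwa [norm_zero] at this
    rw [Finset.sum_const_zero] at h1
    exact h1.eventually (gt_mem_nhds (by norm_num))
  filter_upwards [hsmall] with i hi
  have e1 : ∀ a : L1 𝕜, ‖a‖ = ∑ F ∈ S, ‖a F‖ + ∑' F : {F // F ∉ S}, ‖a F‖ := by
    intro a
    rw [norm_eq, ← (summable_norm a).sum_add_tsum_subtype_compl S]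
  have sm : ∀ a : L1 𝕜, Summable fun F : {F // F ∉ S} => ‖a F‖ := fun a =>
    (summable_norm a).subtype _
  have e2 : ∑ F ∈ S, ‖w F‖ - ∑ F ∈ S, ‖v i F‖ ≤ ∑ F ∈ S, ‖(w + v i) F‖ := by
    rw [← Finset.sum_sub_distrib]
    refine Finset.sum_le_sum fun F _ => ?_
    have h1 : (w + v i) F = w F + v i F := rfl
    rw [h1]
    have h2 := norm_sub_le (w F + v i F) (v i F)
    rw [add_sub_cancel_right] at h2
    linarith
  have e3 : ∑' F : {F // F ∉ S}, ‖v i F‖ - ∑' F : {F // F ∉ S}, ‖w F‖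
      ≤ ∑' F : {F // F ∉ S}, ‖(w + v i) F‖ := by
    rw [← (sm (v i)).tsum_sub (sm w)]
    refine ((sm (v i)).sub (sm w)).tsum_le_tsum (fun F => ?_) (sm (w + v i))
    have h1 : (w + v i) (F : Finset ℕ) = w F + v i F := rfl
    rw [h1]
    have h2 := norm_sub_le (w F + v i F) (w F)
    rw [add_sub_cancel_left] at h2
    linarith
  have e4 := e1 w
  have e5 := e1 (v i)
  have e6 := e1 (w + v i)
  have e7 := hv i
  linarith

/-- real functions with bounded sums over all finite sets tend to zero -/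
lemma tendsto_of_bdd (x : ℕ → ℝ) (C : ℝ) (h : ∀ F : Finset ℕ, |∑ j ∈ F, x j| ≤ C) :
    Tendsto x atTop (𝓝 0) := by
  have hs : Summable fun j => |x j| := by
    refine summable_of_sum_le (c := 2 * C) (fun _ => abs_nonneg _) fun F => ?_
    have h1 : ∑ j ∈ F, |x j| = ∑ j ∈ F.filter (fun j => 0 ≤ x j), x j
        - ∑ j ∈ F.filter (fun j => ¬ 0 ≤ x j), x j := by
      rw [← Finset.sum_filter_add_sum_filter_not F (fun j => 0 ≤ x j), sub_eq_add_neg,
        ← Finset.sum_neg_distrib]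
      congr 1
      · refine Finset.sum_congr rfl fun j hj => abs_of_nonneg (Finset.mem_filter.1 hj).2
      · refine Finset.sum_congr rfl fun j hj =>
          abs_of_neg (not_le.1 (Finset.mem_filter.1 hj).2)
    rw [h1]
    have h2 := (abs_le.1 (h (F.filter fun j => 0 ≤ x j))).2
    have h3 := (abs_le.1 (h (F.filter fun j => ¬ 0 ≤ x j))).1
    linarith
  exact hs.of_abs.tendsto_atTop_zero

/-- **The subspace is not complemented.** -/
theorem not_complemented : ¬ (GG : Submodule 𝕜 (L1 𝕜)).ClosedComplemented := by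
  rintro ⟨P, hP⟩
  -- the vectors `v F = u F - P (u F)`
  set v : Finset ℕ → L1 𝕜 := fun F => u F - (P (u F) : L1 𝕜) with hv
  set C : ℝ := 1 + ‖P‖ with hC
  have hvn : ∀ F, ‖v F‖ ≤ C := by
    intro F
    have h1 : ‖((P (u F) : (GG : Submodule 𝕜 (L1 𝕜))) : L1 𝕜)‖ ≤ ‖P‖ := by
      have h2 := P.le_opNorm (u F)
      rw [norm_u, mul_one] at h2
      exact h2
    have h2 := norm_sub_le (u F : L1 𝕜) (P (u F) : L1 𝕜)
    rw [norm_u] at h2
    rw [hC]
    exact h2.trans (by linarith)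
  have hlv : ∀ j F, lam j (v F) = if j ∈ F then 1 else 0 := by
    intro j F
    have h1 := (mem_GG _).1 (P (u F)).2 j
    simp only [hv, map_sub, h1, sub_zero, lam_u]
  -- sums over finite sets
  have hsum : ∀ F : Finset ℕ, ∑ j ∈ F, v {j} = v F := by
    intro F
    have h1 : ∑ j ∈ F, (u {j} : L1 𝕜) - u F ∈ (GG : Submodule 𝕜 (L1 𝕜)) := by
      rw [mem_GG]
      intro i
      rw [map_sub, map_sum, lam_u]
      simp only [lam_u, Finset.mem_singleton]
      rw [Finset.sum_ite_eq F i (fun _ => (1 : 𝕜)), sub_self]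
    have h2 := hP ⟨_, h1⟩
    have h3 := congrArg (fun x : (GG : Submodule 𝕜 (L1 𝕜)) => (x : L1 𝕜)) h2
    simp only [map_sub, map_sum, Submodule.coe_sub, Submodule.coe_sum] at h3
    simp only [hv, Finset.sum_sub_distrib]
    have h4 : ∑ j ∈ F, ((P (u {j}) : (GG : Submodule 𝕜 (L1 𝕜))) : L1 𝕜)
        - ((P (u F) : (GG : Submodule 𝕜 (L1 𝕜))) : L1 𝕜) = ∑ j ∈ F, (u {j} : L1 𝕜) - u F := h3
    rw [sub_eq_sub_iff_add_eq_add] at h4 ⊢
    rw [add_comm (u F : L1 𝕜), h4]
  have hvge : ∀ i : ℕ, 1 ≤ ‖v {i}‖ := by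
    intro i
    have h1 := lam_norm_le i (v {i})
    rw [hlv] at h1
    simpa using h1
  have hcoord : ∀ F : Finset ℕ, Tendsto (fun i => v {i} F) atTop (𝓝 0) := by
    intro F
    have hb : ∀ S : Finset ℕ, ‖∑ j ∈ S, v {j} F‖ ≤ C := by
      intro S
      have h1 : ∑ j ∈ S, v {j} F = v S F := by
        rw [← hsum S, lp.coeFn_sum, Finset.sum_apply]
      rw [h1]
      exact (lp.norm_apply_le_norm (by simp) _ _).trans (hvn S)
    have hre : Tendsto (fun i => RCLike.re (v {i} F)) atTop (𝓝 0) :=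
      tendsto_of_bdd _ C fun S => by
        have h1 : ∑ j ∈ S, RCLike.re (v {j} F) = RCLike.re (∑ j ∈ S, v {j} F) := by
          rw [map_sum]
        rw [h1]
        exact (RCLike.abs_re_le_norm _).trans (hb S)
    have him : Tendsto (fun i => RCLike.im (v {i} F)) atTop (𝓝 0) :=
      tendsto_of_bdd _ C fun S => by
        have h1 : ∑ j ∈ S, RCLike.im (v {j} F) = RCLike.im (∑ j ∈ S, v {j} F) := by
          rw [map_sum]
        rw [h1]
        exact (RCLike.abs_im_le_norm _).trans (hb S)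
    have h1 : Tendsto (fun i => ((RCLike.re (v {i} F) : ℝ) : 𝕜) + ((RCLike.im (v {i} F) : ℝ) : 𝕜)
        * RCLike.I) atTop (𝓝 (((0 : ℝ) : 𝕜) + ((0 : ℝ) : 𝕜) * RCLike.I)) :=
      (((RCLike.continuous_ofReal.tendsto 0).comp hre).add
        (((RCLike.continuous_ofReal.tendsto 0).comp him).mul_const _))
    simp only [RCLike.re_add_im, RCLike.ofReal_zero, zero_mul, add_zero] at h1
    exact h1
  -- large sums
  have hbig : ∀ m : ℕ, ∃ S : Finset ℕ, (m : ℝ) / 2 ≤ ‖∑ j ∈ S, v {j}‖ := by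
    intro m
    induction m with
    | zero => exact ⟨∅, by simp⟩
    | succ m ih =>
      obtain ⟨S, hS⟩ := ih
      have h1 := add_far (∑ j ∈ S, v {j}) (fun i => v {i}) hvge hcoord
      have h2 : ∀ᶠ i in atTop, i ∉ S := by
        obtain ⟨B, hB⟩ := S.bddAbove
        filter_upwards [eventually_gt_atTop B] with i hi hiS
        exact absurd (hB hiS) (not_le.2 hi)
      obtain ⟨i, hi1, hi2⟩ := (h1.and h2).exists
      refine ⟨insert i S, ?_⟩
      rw [Finset.sum_insert hi2, add_comm (v {i})]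
      push_cast
      linarith
  obtain ⟨m, hm⟩ := exists_nat_gt (2 * C)
  obtain ⟨S, hS⟩ := hbig m
  rw [hsum] at hS
  have := hvn S
  linarith

/-- `ℓ¹` is separable -/
theorem separable_L1 : SeparableSpace (L1 𝕜) := by
  have h1 : IsSeparable (Set.range fun F : Finset ℕ => (u F : L1 𝕜)) :=
    (Set.countable_range _).isSeparable
  have h2 := (h1.span (R := 𝕜)).closure
  rw [← isSeparable_univ_iff]
  refine h2.mono fun a _ => ?_
  have h3 := lp.hasSum_single (by simp) a
  refine mem_closure_of_tendsto h3 (Eventually.of_forall fun S => ?_)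
  refine Submodule.sum_mem _ fun F _ => ?_
  have h4 : lp.single 1 F (a F) = a F • (u F : L1 𝕜) := by
    rw [u, ← lp.single_smul, smul_eq_mul, mul_one]
  rw [h4]
  exact Submodule.smul_mem _ _ (Submodule.subset_span ⟨F, rfl⟩)

end Pool.Agent.U514.BE
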